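import Mathlib

/-!
# Hardy's theorem in degree 4 (MP_77948b_nt): definitions
-/

namespace Pool.Agent.H4

open NumberField Complex MeasureTheory
open scoped UpperHalfPlane MatrixGroups ENNReal

variable {K : Type} [Field K] [NumberField K]

/-- `a` is totally positive. -/
def TP (s : Fin 2 → 𝓞 K →+* ℝ) (a : 𝓞 K) : Prop := 0 < s 0 a ∧ 0 < s 1 a

/-- The data of a real quadratic field of narrow class number one: the two real embeddings `s`, a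
totally positive generator `κ` of the different, the fundamental unit `ε` (of norm `-1`), the
nontrivial automorphism `τ`, a `ℤ`-basis `b` of the integers and the basis `b'` dual to `b` for the
pairing `Tr(x y / κ)`. -/
structure Fld (s : Fin 2 → 𝓞 K →+* ℝ) (κ : 𝓞 K) (ε : (𝓞 K)ˣ) (τ : 𝓞 K ≃+* 𝓞 K)
    (b b' : Fin 2 → 𝓞 K) : Prop where
  tau0 : ∀ x, s 0 (τ x) = s 1 x
  tau1 : ∀ x, s 1 (τ x) = s 0 x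
  inj : ∀ x, s 0 x = 0 → x = 0
  gen : ∀ I : Ideal (𝓞 K), I ≠ ⊥ → ∃ a, TP s a ∧ I = Ideal.span {a}
  norm : ∀ x, (Ideal.absNorm (Ideal.span {x}) : ℝ) = |s 0 x * s 1 x|
  eps : 1 < s 0 (ε : 𝓞 K)
  eps' : s 0 (ε : 𝓞 K) * s 1 (ε : 𝓞 K) = -1
  units : ∀ u : (𝓞 K)ˣ, ∃ n : ℤ, u = ε ^ n ∨ u = -ε ^ n
  kap : TP s κ
  kapt : ∃ u : (𝓞 K)ˣ, κ = u * τ κ
  bas : ∀ x, ∃ n : Fin 2 → ℤ, x = n 0 * b 0 + n 1 * b 1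
  bas' : ∀ x, ∃ n : Fin 2 → ℤ, x = n 0 * b' 0 + n 1 * b' 1
  dual : ∀ i j, s 0 (b i * b' j) / s 0 κ + s 1 (b i * b' j) / s 1 κ = if i = j then 1 else 0

/-- `L = 2 log ε`: the totally positive units are `ε^{2n}`, with logarithms `n L`. -/
noncomputable def LL (s : Fin 2 → 𝓞 K →+* ℝ) (ε : (𝓞 K)ˣ) : ℝ := 2 * Real.log (s 0 (ε : 𝓞 K))

/-- `D = κ₀ κ₁`, the discriminant. -/
def DD (s : Fin 2 → 𝓞 K →+* ℝ) (κ : 𝓞 K) : ℝ := s 0 κ * s 1 κ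

/-- the determinant of the basis `b` -/
def dl (s : Fin 2 → 𝓞 K →+* ℝ) (b : Fin 2 → 𝓞 K) : ℝ :=
  s 0 (b 0) * s 1 (b 1) - s 0 (b 1) * s 1 (b 0)

/-- nonzero ideals -/
abbrev NI (K : Type) [Field K] [NumberField K] : Type := {I : Ideal (𝓞 K) // I ≠ ⊥}

open scoped Classical in
/-- a totally positive generator -/
noncomputable def gn (s : Fin 2 → 𝓞 K →+* ℝ) (𝔞 : Ideal (𝓞 K)) : 𝓞 K :=
  if h : ∃ a, TP s a ∧ 𝔞 = Ideal.span {a} then h.choose else 1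

open scoped Classical in
/-- `ψ_ν((α)) = (α₀/α₁)^{iν}` for totally positive `α`. -/
noncomputable def psi (s : Fin 2 → 𝓞 K →+* ℝ) (ν : ℝ) (𝔞 : Ideal (𝓞 K)) : ℂ :=
  if h : ∃ a, TP s a ∧ 𝔞 = Ideal.span {a} then
    cexp ((ν * Real.log (s 0 h.choose / s 1 h.choose) : ℝ) * I) else 0

/-! ## Fourier series -/

/-- the term `c(a) e(a₀ z₁/κ₀ + a₁ z₂/κ₁)` -/
noncomputable def ft (s : Fin 2 → 𝓞 K →+* ℝ) (κ : 𝓞 K) (c : 𝓞 K → ℝ) (z : ℂ × ℂ) (a : 𝓞 K) : ℂ :=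
  (c a : ℂ) * cexp (2 * Real.pi * I * (((s 0 a / s 0 κ : ℝ) : ℂ) * z.1 +
    ((s 1 a / s 1 κ : ℝ) : ℂ) * z.2))

/-- the Fourier series `∑_a c(a) e(a₀ z₁/κ₀ + a₁ z₂/κ₁)` -/
noncomputable def fser (s : Fin 2 → 𝓞 K →+* ℝ) (κ : 𝓞 K) (c : 𝓞 K → ℝ) (z : ℂ × ℂ) : ℂ :=
  ∑' a : 𝓞 K, ft s κ c z a

/-- `c` is the system of Fourier coefficients of an automorphic form of parallel weight `k`. -/
structure AF (s : Fin 2 → 𝓞 K →+* ℝ) (κ : 𝓞 K) (k : ℕ) (c : 𝓞 K → ℝ) : Prop where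
  supp : ∀ a, ¬ TP s a → c a = 0
  unit : ∀ (a : 𝓞 K) (u : (𝓞 K)ˣ), TP s (u : 𝓞 K) → c (u * a) = c a
  grow : ∃ C A : ℝ, ∀ a, TP s a → |c a| ≤ C * (s 0 a * s 1 a) ^ A
  mod : ∀ (γ : SL(2, 𝓞 K)) (z₁ z₂ : ℂ), 0 < z₁.im → 0 < z₂.im →
    fser s κ c ((s 0 (γ 0 0) * z₁ + s 0 (γ 0 1)) / (s 0 (γ 1 0) * z₁ + s 0 (γ 1 1)),
        (s 1 (γ 0 0) * z₂ + s 1 (γ 0 1)) / (s 1 (γ 1 0) * z₂ + s 1 (γ 1 1))) =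
      (s 0 (γ 1 0) * z₁ + s 0 (γ 1 1)) ^ k * (s 1 (γ 1 0) * z₂ + s 1 (γ 1 1)) ^ k *
        fser s κ c (z₁, z₂)

/-- the growth condition with exponent `A` -/
def GR (s : Fin 2 → 𝓞 K →+* ℝ) (A : ℝ) (c : 𝓞 K → ℝ) : Prop :=
  ∃ C : ℝ, 0 ≤ C ∧ ∀ a, TP s a → |c a| ≤ C * (s 0 a * s 1 a) ^ A

/-- the function `F(z) = f(z) conj(g(z)) (y₁ y₂)^k` on `ℍ × ℍ` -/
noncomputable def FF (s : Fin 2 → 𝓞 K →+* ℝ) (κ : 𝓞 K) (k : ℕ) (c c' : 𝓞 K → ℝ) (z : ℍ × ℍ) : ℂ :=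
  fser s κ c ((z.1 : ℂ), (z.2 : ℂ)) * (starRingEnd ℂ) (fser s κ c' ((z.1 : ℂ), (z.2 : ℂ))) *
    (((z.1.im * z.2.im) ^ k : ℝ) : ℂ)

/-! ## Theta series -/

/-- `|c₀ z₁ + d₀|²/y₁` -/
noncomputable def q0 (s : Fin 2 → 𝓞 K →+* ℝ) (z : ℍ × ℍ) (x : 𝓞 K × 𝓞 K) : ℝ :=
  normSq ((s 0 x.1 : ℂ) * (z.1 : ℂ) + (s 0 x.2 : ℂ)) / z.1.im

/-- `|c₁ z₂ + d₁|²/y₂` -/
noncomputable def q1 (s : Fin 2 → 𝓞 K →+* ℝ) (z : ℍ × ℍ) (x : 𝓞 K × 𝓞 K) : ℝ :=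
  normSq ((s 1 x.1 : ℂ) * (z.2 : ℂ) + (s 1 x.2 : ℂ)) / z.2.im

/-- the theta series `∑_{c,d} exp(-π(t₁ |c₀z₁+d₀|²/y₁ + t₂ |c₁z₂+d₁|²/y₂))` -/
noncomputable def th (s : Fin 2 → 𝓞 K →+* ℝ) (t : ℝ × ℝ) (z : ℍ × ℍ) : ℝ :=
  ∑' x : 𝓞 K × 𝓞 K, Real.exp (-(Real.pi * (t.1 * q0 s z x + t.2 * q1 s z x)))

/-- the action of `SL₂(𝓞)` on `ℍ × ℍ` -/
noncomputable def act (s : Fin 2 → 𝓞 K →+* ℝ) (γ : SL(2, 𝓞 K)) (z : ℍ × ℍ) : ℍ × ℍ :=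
  (Matrix.SpecialLinearGroup.map (s 0) γ • z.1, Matrix.SpecialLinearGroup.map (s 1) γ • z.2)

/-- the first coordinate of the real part in the basis `b` -/
noncomputable def cu (s : Fin 2 → 𝓞 K →+* ℝ) (b : Fin 2 → 𝓞 K) (z : ℍ × ℍ) : ℝ :=
  (z.1.re * s 1 (b 1) - z.2.re * s 0 (b 1)) / dl s b

/-- the second coordinate of the real part in the basis `b` -/
noncomputable def cv (s : Fin 2 → 𝓞 K →+* ℝ) (b : Fin 2 → 𝓞 K) (z : ℍ × ℍ) : ℝ :=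
  (z.2.re * s 0 (b 0) - z.1.re * s 1 (b 0)) / dl s b

/-- the fundamental box for the translations -/
def Box (s : Fin 2 → 𝓞 K →+* ℝ) (b : Fin 2 → 𝓞 K) : Set (ℍ × ℍ) :=
  {z | cu s b z ∈ Set.Ico (0 : ℝ) 1 ∧ cv s b z ∈ Set.Ico (0 : ℝ) 1}

/-- `∑_𝔞 exp(-π(t₁ g₀²/y₁ + t₂ g₁²/y₂))`, `g` a totally positive generator of `𝔞` -/
noncomputable def bt (s : Fin 2 → 𝓞 K →+* ℝ) (t : ℝ × ℝ) (z : ℍ × ℍ) : ℝ≥0∞ :=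
  ∑' 𝔞 : NI K, ENNReal.ofReal (Real.exp (-(Real.pi * (t.1 * s 0 (gn s 𝔞.1) ^ 2 / z.1.im +
    t.2 * s 1 (gn s 𝔞.1) ^ 2 / z.2.im))))

open scoped Classical in
/-- the average of a weight over the group -/
noncomputable def avg (s : Fin 2 → 𝓞 K →+* ℝ) (b : Fin 2 → 𝓞 K) (a : ℍ × ℍ → ℝ≥0∞) (z : ℍ × ℍ) :
    ℝ≥0∞ :=
  ∑' γ : SL(2, 𝓞 K), if act s γ z ∈ Box s b then a (act s γ z) else 0

/-- the finite measure on the box which represents the quotient `SL₂(𝓞)\ℍ²` -/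
noncomputable def mm (s : Fin 2 → 𝓞 K →+* ℝ) (b : Fin 2 → 𝓞 K) (t : ℝ × ℝ) : Measure (ℍ × ℍ) :=
  (volume.restrict (Box s b)).withDensity
    (fun z => bt s t z / ENNReal.ofReal (th s t z - 1))

/-! ## Integrals in one variable -/

/-- `q(a, A) = ∫_0^∞ y^{k-2} exp(-4π a y - π A/y) dy` -/
noncomputable def qI (k : ℕ) (a A : ℝ) : ℝ :=
  ∫ y in Set.Ioi (0 : ℝ), y ^ (k - 2 : ℕ) * Real.exp (-(4 * Real.pi * a * y) - Real.pi * A / y)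

/-! ## The Hecke integral -/

/-- `Φ_ν(z) = ∫_0^L f(z e^v, z e^{-v}) e^{2iνv} dv` -/
noncomputable def Ph (s : Fin 2 → 𝓞 K →+* ℝ) (κ : 𝓞 K) (c : 𝓞 K → ℝ) (L ν : ℝ) (z : ℂ) : ℂ :=
  ∫ v in (0 : ℝ)..L, fser s κ c (z * (Real.exp v : ℂ), z * (Real.exp (-v) : ℂ)) *
    cexp ((2 * ν * v : ℝ) * I)

/-- `G_ν(w) = 2 ∫_0^∞ Φ_ν(iρ) ρ^{2w-1} dρ` -/
noncomputable def Gm (s : Fin 2 → 𝓞 K →+* ℝ) (κ : 𝓞 K) (c : 𝓞 K → ℝ) (L ν : ℝ) (w : ℂ) : ℂ :=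
  2 * mellin (fun ρ : ℝ => Ph s κ c L ν (I * (ρ : ℂ))) (2 * w)

/-! ## The analytic package of a degree 4 L-function with large first moment -/

/-- The value `a(n) n^{-1/2}` at `r = n ∈ ℕ`, `n ≥ 1`, and `0` at the other real numbers. -/
noncomputable def atl (a : ℕ → ℂ) (r : ℝ) : ℂ :=
  open scoped Classical in
  if (⌊r⌋₊ : ℝ) = r ∧ 1 ≤ r then a ⌊r⌋₊ * ((r ^ (-(1 / 2) : ℝ) : ℝ) : ℂ) else 0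

/-- The analytic properties of the completed L-function used in Parts L and E. -/
structure Pkg (k : ℕ) (ν : ℝ) (a : ℕ → ℂ) (Λ : ℂ → ℂ) : Prop where
  diff : Differentiable ℂ Λ
  ser : ∃ (A q : ℝ) (c₀ : ℂ), 0 < q ∧ c₀ ≠ 0 ∧ LSeriesSummable a A ∧ ∀ s : ℂ, A ≤ s.re →
    Λ s = c₀ * (q : ℂ) ^ s * (Gamma (s + ((k : ℂ) - 1) / 2 + ν * I) *
      Gamma (s + ((k : ℂ) - 1) / 2 - ν * I)) * LSeries a s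
  dec : ∀ θ x y : ℝ, 0 ≤ θ → θ < Real.pi / 2 → ∃ C : ℝ, ∀ s : ℂ, x ≤ s.re → s.re ≤ y →
    ‖Λ s‖ ≤ C * Real.exp (-(2 * θ * |s.im|))
  bd : ∃ C : ℝ, ∀ θ : ℝ, 0 ≤ θ → θ < Real.pi / 2 →
    ‖∫ t : ℝ, Λ (1 / 2 + t * I) * ((Real.exp (2 * θ * t) : ℝ) : ℂ)‖ ≤ C * ((Real.cos θ) ^ k)⁻¹
  real : ∃ ω : ℂ, ‖ω‖ = 1 ∧ ∀ t : ℝ, (ω * Λ (1 / 2 + t * I)).im = 0

/-- The functional `r^{it} ↦ a(r) r^{-1/2}` is bounded. -/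
def FunBd (a : ℕ → ℂ) (C : ℝ) : Prop :=
  ∀ (ι : Type) [Countable ι] (b : ι → ℂ) (r : ι → ℝ) (B : ℝ), Summable (fun j => ‖b j‖) →
    (∀ j, 0 < r j) → (∀ t : ℝ, ‖∑' j, b j * cexp ((t * Real.log (r j) : ℝ) * I)‖ ≤ B) →
    ‖∑' j, b j * atl a (r j)‖ ≤ C * B

/-! ## Local polynomials -/

/-- `t_j(x) = α^j + α^{-j}`, `x = α + 1/α` -/
def tt (x : ℝ) : ℕ → ℝ
  | 0 => 2
  | 1 => x
  | (j + 2) => x * tt x (j + 1) - tt x j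

/-- `u_j(x) = (α^{j+1} - α^{-j-1})/(α - 1/α)`, `x = α + 1/α` -/
def uu (x : ℝ) : ℕ → ℝ
  | 0 => 1
  | 1 => x
  | (j + 2) => x * uu x (j + 1) - uu x j

/-- the polynomial `∏ (1 - α^{±1} β^{±1} Y)`, `x = α + 1/α`, `y = β + 1/β` -/
def p4 (x y : ℝ) (Y : ℂ) : ℂ :=
  1 - x * y * Y + (x ^ 2 + y ^ 2 - 2) * Y ^ 2 - x * y * Y ^ 3 + Y ^ 4

/-- The Hecke relations. -/
structure Hek (lam : Ideal (𝓞 K) → ℝ) : Prop where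
  one : lam ⊤ = 1
  mul : ∀ 𝔞 𝔟 : Ideal (𝓞 K), IsCoprime 𝔞 𝔟 → lam (𝔞 * 𝔟) = lam 𝔞 * lam 𝔟
  hecke : ∀ 𝔭 : Ideal (𝓞 K), 𝔭.IsPrime → 𝔭 ≠ ⊥ → ∀ j : ℕ,
    lam (𝔭 ^ (j + 2)) = lam 𝔭 * lam (𝔭 ^ (j + 1)) - lam (𝔭 ^ j)
  grow : ∃ C A : ℝ, ∀ 𝔞 : Ideal (𝓞 K), 𝔞 ≠ ⊥ → |lam 𝔞| ≤ C * (Ideal.absNorm 𝔞 : ℝ) ^ A

open scoped Classical in
/-- The Fourier coefficients `λ((a)) N(a)^{(k-1)/2}`, `a` totally positive. -/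
noncomputable def cf (s : Fin 2 → 𝓞 K →+* ℝ) (k : ℕ) (lam : Ideal (𝓞 K) → ℝ) (a : 𝓞 K) : ℝ :=
  if TP s a then lam (Ideal.span {a}) * (s 0 a * s 1 a) ^ (((k : ℝ) - 1) / 2) else 0

open scoped Classical in
/-- `a(n) = ∑_{N𝔞 = n} λ(𝔞) ψ_ν(𝔞)` -/
noncomputable def an (s : Fin 2 → 𝓞 K →+* ℝ) (ν : ℝ) (lam : Ideal (𝓞 K) → ℝ) (n : ℕ) : ℂ :=
  ∑' 𝔞 : Ideal (𝓞 K), if Ideal.absNorm 𝔞 = n then (lam 𝔞 : ℂ) * psi s ν 𝔞 else 0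

/-- `L_i(p) = a(p^i) p^{-i/2}`, `min(1, |L_i(p)|)²` -/
noncomputable def ml (a : ℕ → ℂ) (i p : ℕ) : ℝ :=
  (min 1 (‖a (p ^ i)‖ * (p : ℝ) ^ (-((i : ℝ) / 2)))) ^ 2

/-- the rational prime below a prime ideal -/
noncomputable def blw (𝔭 : Ideal (𝓞 K)) : ℕ := (Ideal.absNorm 𝔭).minFac

end Pool.Agent.H4
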