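import Pool.Agent.Lib_helper98.H4.Defs

/-!
# Hardy's theorem in degree 4: further definitions
-/

namespace Pool.Agent.H4

open NumberField Complex MeasureTheory
open scoped UpperHalfPlane MatrixGroups ENNReal

variable {K : Type} [Field K] [NumberField K]

/-- The point of `ℍ × ℍ` with imaginary parts `y` and real part `u b₀ + v b₁`. -/
noncomputable def pt (s : Fin 2 → 𝓞 K →+* ℝ) (b : Fin 2 → 𝓞 K) (u v y₀ y₁ : ℝ) : ℍ × ℍ :=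
  (UpperHalfPlane.ofComplex (((u * s 0 (b 0) + v * s 0 (b 1) : ℝ) : ℂ) + y₀ * I),
    UpperHalfPlane.ofComplex (((u * s 1 (b 0) + v * s 1 (b 1) : ℝ) : ℂ) + y₁ * I))

/-- `J(t) = ∫ F (Θ_t - 1) dm`. -/
noncomputable def Jt (s : Fin 2 → 𝓞 K →+* ℝ) (κ : 𝓞 K) (b : Fin 2 → 𝓞 K) (k : ℕ)
    (c c' : 𝓞 K → ℝ) (t : ℝ × ℝ) : ℂ :=
  ∫ z in Box s b, FF s κ k c c' z * ((bt s t z).toReal : ℂ)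

/-- The total mass `∫ F dm`. -/
noncomputable def J0 (s : Fin 2 → 𝓞 K →+* ℝ) (κ : 𝓞 K) (b : Fin 2 → 𝓞 K) (k : ℕ)
    (c c' : 𝓞 K → ℝ) (t : ℝ × ℝ) : ℂ :=
  ∫ z, FF s κ k c c' z ∂(mm s b t)

/-- `M_{θ,ν}(w) = ∫_0^∞ Φ_ν(i e^{iθ} ρ) ρ^{2w-1} dρ` -/
noncomputable def Mt (s : Fin 2 → 𝓞 K →+* ℝ) (κ : 𝓞 K) (c : 𝓞 K → ℝ) (L ν θ : ℝ) (w : ℂ) : ℂ :=
  mellin (fun ρ : ℝ => Ph s κ c L ν (I * cexp ((θ : ℂ) * I) * (ρ : ℂ))) (2 * w)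

/-- The completed L-function. -/
noncomputable def Lam (s : Fin 2 → 𝓞 K →+* ℝ) (κ : 𝓞 K) (k : ℕ) (c : 𝓞 K → ℝ) (L ν : ℝ) (z : ℂ) :
    ℂ :=
  ((2 * Real.pi : ℝ) : ℂ) ^ ((k : ℂ) - 1) * (DD s κ : ℂ) ^ (-(((k : ℂ) - 1) / 2)) *
    cexp ((ν * Real.log (s 0 κ / s 1 κ) : ℝ) * I) * Gm s κ c L (-ν) (z + ((k : ℂ) - 1) / 2)

/-- The coefficients of `v(X) = (1 + c̄ X̄^i)/(1 + c X^i)`, `X = p^{-it}`, on `|X| = 1`: the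
coefficient of `X^{i(n-1)}` is `vcf c n`. -/
noncomputable def vcf (c : ℂ) (n : ℕ) : ℂ :=
  if n = 0 then (starRingEnd ℂ) c else if n = 1 then 1 - (‖c‖ : ℂ) ^ 2
    else (-c) ^ (n - 1) * (1 - (‖c‖ : ℂ) ^ 2)

/-- nonzero prime ideals -/
abbrev PI (K : Type) [Field K] [NumberField K] : Type :=
  {𝔭 : Ideal (𝓞 K) // 𝔭.IsPrime ∧ 𝔭 ≠ ⊥}

/-- `p` splits: the primes above `p` are `𝔭 ≠ τ𝔭`, of norm `p`. -/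
def Spl (τ : 𝓞 K ≃+* 𝓞 K) (p : ℕ) (𝔭 : PI K) : Prop :=
  Ideal.absNorm 𝔭.1 = p ∧ 𝔭.1.map τ ≠ 𝔭.1 ∧
    ∀ 𝔮 : PI K, blw 𝔮.1 = p ↔ 𝔮.1 = 𝔭.1 ∨ 𝔮.1 = 𝔭.1.map τ

/-- `p` is inert: `𝔭 = (p)` is prime. -/
def Inr (τ : 𝓞 K ≃+* 𝓞 K) (p : ℕ) (𝔭 : PI K) : Prop :=
  𝔭.1 = Ideal.span {(p : 𝓞 K)} ∧ Ideal.absNorm 𝔭.1 = p ^ 2 ∧ 𝔭.1.map τ = 𝔭.1 ∧
    ∀ 𝔮 : PI K, blw 𝔮.1 = p ↔ 𝔮.1 = 𝔭.1

/-- `h_i = ∑_j ω^j u_j(x) ω̄^{i-j} u_{i-j}(y)` -/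
noncomputable def hh (x y : ℝ) (ω : ℂ) (i : ℕ) : ℂ :=
  ∑ j ∈ Finset.range (i + 1), ω ^ j * uu x j * ((starRingEnd ℂ) ω ^ (i - j) * uu y (i - j))

/-- `P_j = ω^j t_j(x) + ω̄^j t_j(y)` -/
noncomputable def PP (x y : ℝ) (ω : ℂ) (j : ℕ) : ℂ :=
  ω ^ j * tt x j + (starRingEnd ℂ) ω ^ j * tt y j

/-- `S_j(𝔭)/(2j)`, `S_j(𝔭) = |ω^j t_j(x) + ω̄^j t_j(y)|²`, with `j + 1` for `j` -/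
noncomputable def Sv (s : Fin 2 → 𝓞 K →+* ℝ) (τ : 𝓞 K ≃+* 𝓞 K) (ν : ℝ)
    (lam : Ideal (𝓞 K) → ℝ) (q : PI K × ℕ) : ℝ :=
  ‖PP (lam q.1.1) (lam (q.1.1.map τ)) (psi s ν q.1.1) (q.2 + 1)‖ ^ 2 / (2 * (q.2 + 1))

open scoped Classical in
/-- `Sv` at the primes not above the primes in `B` -/
noncomputable def SB (s : Fin 2 → 𝓞 K →+* ℝ) (τ : 𝓞 K ≃+* 𝓞 K) (ν : ℝ)
    (lam : Ideal (𝓞 K) → ℝ) (B : Finset ℕ) (q : PI K × ℕ) : ℝ :=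
  if blw q.1.1 ∈ B then 0 else Sv s τ ν lam q

end Pool.Agent.H4
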